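import Pool.Agent.Helper480_Flip.RedPoly
import Pool.Agent.H673R2.HardOn

/-!
# Finding a shortest sequence of flips that convexifies a polygon is NP-hard, in a strong form

The definitions (pockets, flips, the decision problem SHORTEST) are in
`Pool.Agent.Helper480_Flip.Defs`; `NPHardOn` is in `Pool.Agent.H673R2.HardOn`.
-/

namespace Pool.Agent.Results.MP_bfe50c_lc.ShortestNPHardTight

open Pool.Agent.NPC Pool.Agent.NPC.R671.SS Pool.Agent.Helper480_Flip Pool.Agent.H673R2
open Pool.Agent.NPC.Flip480

/-- The inputs `(P, k)` such that `P` is a simple polygon with more than `k` vertices, some sequence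
of exactly `k + 1` flips convexifies `P`, and every sequence of flips which convexifies `P` consists
of exactly `k` or exactly `k + 1` flips. -/
def Tight (I : List (ℚ × ℚ) × ℕ) : Prop :=
  IsSimple I.1.length (vertices I.1) ∧ I.2 < I.1.length ∧
    ConvexifiesIn I.1.length (I.2 + 1) (vertices I.1) ∧
    ∀ t, ConvexifiesIn I.1.length t (vertices I.1) → t = I.2 ∨ t = I.2 + 1

/-- The number of flips of a shortest convexifying sequence is NP-hard to determine even if all
convexifying sequences are known to have nearly the same number of flips: the decision problem
SHORTEST (is there a sequence of at most `k` flips which convexifies the polygon `P`?) is NP-hard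
under polynomial-time many-one reductions, on the inputs `(P, k)` such that `P` is a simple polygon
with more than `k` vertices, some sequence of `k + 1` flips convexifies `P`, and every sequence of
flips which convexifies `P` has length `k` or `k + 1`. -/
theorem result : NPHardOn Tight Shortest := by
  refine npHardOn_of hardPr_SubsetSum poly_short ?_ fun I hI => correct_short I hI
  intro I hI
  obtain ⟨h1, h2⟩ := rP_main true I hI
  refine ⟨h1, ?_, ?_, ?_⟩
  · show 3 * rm I + 1 < (rP true I).length
    rw [rP_length]
    omega
  · show ConvexifiesIn _ (3 * rm I + 1 + 1) _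
    rw [h2]
    refine ⟨fun _ => false, ?_⟩
    have h3 : ¬ rsum I.1 (fun _ => false) I.1.length = I.2 := by
      have h4 : rsum I.1 (fun _ => false) I.1.length = 0 := by
        unfold rsum
        simp
      rw [h4]
      obtain ⟨h5, h6⟩ := hI
      intro h7
      rcases hl : I.1 with _ | ⟨a, l⟩
      · rw [hl] at h6
        simp at h6
      · have := h5 a (by rw [hl]; exact List.mem_cons_self)
        omega
    rw [rho_short I hI, if_neg h3]
  · intro t ht
    obtain ⟨c, hc⟩ := (h2 t).1 ht
    rw [rho_short I hI] at hc
    show t = 3 * rm I + 1 ∨ t = 3 * rm I + 1 + 1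
    split_ifs at hc <;> omega

end Pool.Agent.Results.MP_bfe50c_lc.ShortestNPHardTight
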